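import Pool.Agent.H72.CH.Front
import Pool.Agent.H57.CM.Base
import Pool.Agent.H57.CM.Groups

/-!
# The Bodirsky–Pinsker conjecture for reducts of homogeneous structures with chain completions

Let `B` be a countable set and let `G` be a group of permutations of `B` in the class `IsBase`. Let
`𝔸` be any structure on `B`, with finitely many relations, which is preserved by all permutations in
`G`. Then `𝔸` pp-constructs `K₃`, or there is a finite structure `𝕋` which does not pp-construct `K₃`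
such that the constraint satisfaction problem of `𝔸` is many-one reducible in polynomial time to the
one of `𝕋`. The group `G` is the automorphism group of a homogeneous and finitely bounded structure
with finitely many relations, so the structures `𝔸` are in the scope of the conjecture.

The class `IsBase` contains the automorphism groups of the homogeneous structures `𝔹` with a
transitive automorphism group which have chain completions (`ChainCompletions`), the isometry groups
of the Urysohn spaces with finitely many distances (`IsUrysohn`), and with two groups `G₁`, `G₂`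
their wreath product `G₂ ≀ G₁` in the imprimitive action.

A chain is a descending sequence `E₀ ⊇ E₁ ⊇ … ⊇ E_m` of equivalence relations; it is given by its
level function `lam`: the pair `(x, y)` is in `E_j` iff `j ≤ lam x y`. The relation `E₀` is full. The
structure `𝔹` has chain completions if there is such a chain of invariant equivalence relations on
`B`, the last one being the equality, such that for every `r` there is a number `M` with the
following property, for each chain on a finite set `X` and each set of structures prescribed on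
tuples of length at most `r` of elements of `X`. If for each set `U` of at most `M` elements there is
a map to `𝔹` which maps `E_j`-equivalent elements of `U` to `E_j`-equivalent elements, for all `j`,
and which embeds the structures prescribed on tuples in `U`, so that the levels are preserved on
these tuples, then there is a map which preserves all levels and which embeds all prescribed
structures.

The definitions of `Sig`, `Str`, `Homogeneous`, `FinitelyBounded`, `IsAut`, `IsEmb`,
`PPConstructsK3` and `CSP` are in `Pool.Agent.H68.BG.Conj`.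
-/

set_option autoImplicit false

namespace Pool.Agent.Results.MP_6ab439_lc.ChainCompletions

open Pool.Agent.H68.BP

/-- The level function of a descending chain of equivalence relations: `(x, y)` is in the `j`-th
relation iff `j ≤ lam x y`, for `j = 0, …, m`; the relation with the number `0` is full. -/
structure Levels {X : Type} (m : ℕ) (lam : X → X → ℕ) : Prop where
  le : ∀ x y, lam x y ≤ m
  refl : ∀ x, lam x x = m
  symm : ∀ x y, lam x y = lam y x
  trans : ∀ x y z, min (lam x y) (lam y z) ≤ lam x z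

/-- A prescription on the set `X`: a tuple `s` of length `k` with entries in `X`, and a structure on
`{0, …, k - 1}`, the structure prescribed on the tuple. -/
abbrev Prescription (τ : Sig) (X : Type) : Type := Σ k : ℕ, (Fin k → X) × Str τ (Fin k)

/-- The map `f` realizes the prescription `p`: its composition with the tuple is an embedding of the
prescribed structure. -/
def Realizes {τ : Sig} {X B : Type} (𝔹 : Str τ B) (f : X → B) (p : Prescription τ X) : Prop :=
  IsEmb p.2.2 𝔹 (fun i => f (p.2.1 i))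

/-- The structure `𝔹` has chain completions. -/
def ChainCompletions {τ : Sig} {B : Type} (𝔹 : Str τ B) : Prop :=
  ∃ (m : ℕ) (lv : B → B → ℕ), Levels m lv ∧ (∀ x y, lv x y = m → x = y) ∧
    (∀ g : B ≃ B, IsAut 𝔹 g → ∀ x y, lv (g x) (g y) = lv x y) ∧
    ∀ r : ℕ, ∃ M : ℕ, ∀ (n : ℕ) (lam : Fin n → Fin n → ℕ) (P : Set (Prescription τ (Fin n))),
      Levels m lam → (∀ p ∈ P, p.1 ≤ r) →
      (∀ U : Finset (Fin n), U.card ≤ M → ∃ f : Fin n → B,
        (∀ x ∈ U, ∀ y ∈ U, lam x y ≤ lv (f x) (f y)) ∧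
        ∀ p ∈ P, (∀ i, p.2.1 i ∈ U) → Realizes 𝔹 f p ∧
          ∀ i j, lv (f (p.2.1 i)) (f (p.2.1 j)) = lam (p.2.1 i) (p.2.1 j)) →
      ∃ f : Fin n → B, (∀ x y, lv (f x) (f y) = lam x y) ∧ ∀ p ∈ P, Realizes 𝔹 f p

/-- Urysohn spaces with the finite set `S` of distances: nonempty metric spaces with distances in
`S`, such that each one-point extension with distances in `S` of a finite set of points is
realized. -/
structure IsUrysohn {B : Type} (S : Finset ℝ) (d : B → B → ℝ) : Prop where
  nonempty : Nonempty B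
  mem : ∀ x y, d x y ∈ S
  eq : ∀ x y, d x y = 0 ↔ x = y
  symm : ∀ x y, d x y = d y x
  triangle : ∀ x y z, d x z ≤ d x y + d y z
  ext : ∀ (F : Finset B) (f : B → ℝ), (∀ x ∈ F, f x ∈ S ∧ 0 < f x) →
    (∀ x ∈ F, ∀ y ∈ F, f x ≤ f y + d x y ∧ d x y ≤ f x + f y) → ∃ z, ∀ x ∈ F, d z x = f x

/-- The class of permutation groups: the automorphism groups of the transitive homogeneous
structures with chain completions, the isometry groups of the Urysohn spaces with finitely many
distances, and all iterated wreath products of such groups. -/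
inductive IsBase : {B : Type} → Set (B ≃ B) → Prop
  | chain {B : Type} [Countable B] [Nonempty B] {τ : Sig} (𝔹 : Str τ B) :
      Homogeneous 𝔹 → (∀ x y : B, ∃ g : B ≃ B, IsAut 𝔹 g ∧ g x = y) → ChainCompletions 𝔹 →
      IsBase {g : B ≃ B | IsAut 𝔹 g}
  | urysohn {B : Type} [Countable B] (S : Finset ℝ) (d : B → B → ℝ) : IsUrysohn S d →
      IsBase {g : B ≃ B | ∀ x y, d (g x) (g y) = d x y}
  | wreath {B₁ B₂ : Type} {G₁ : Set (B₁ ≃ B₁)} {G₂ : Set (B₂ ≃ B₂)} : IsBase G₁ → IsBase G₂ →
      IsBase {g : B₁ × B₂ ≃ B₁ × B₂ | ∃ g₁ ∈ G₁, ∃ h : B₁ → (B₂ ≃ B₂), (∀ x, h x ∈ G₂) ∧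
        ∀ p, g p = (g₁ p.1, h p.1 p.2)}

theorem key {B : Type} {G : Set (B ≃ B)} (h : IsBase G) :
    ∃ (τ : Sig) (𝔹 : Str τ B), (∀ l, 1 ≤ τ.ar l) ∧ Pool.Agent.H57.CM.IsChain 𝔹 ∧
      ∀ g : B ≃ B, IsAut 𝔹 g ↔ g ∈ G := by
  induction h with
  | chain 𝔹 h1 h2 h3 =>
    obtain ⟨m, lv, hL, he, hi, hR⟩ := h3
    obtain ⟨τ', 𝔹', har, hH', hR', hg⟩ := Pool.Agent.H20.CH3.pf_ZRC _ _ 𝔹 m lv ‹_› h1
      (fun r => by
        obtain ⟨M, hM⟩ := hR r
        exact ⟨M, fun n lam P h4 h5 h6 =>
          hM n lam P ⟨h4.le, h4.self, h4.sym, h4.ult⟩ h5 h6⟩)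
    refine ⟨τ', 𝔹', har, ⟨‹_›, ‹_›, hH', fun x y => ?_, m, lv,
      ⟨⟨hL.le, hL.refl, hL.symm, hL.trans⟩, he⟩, fun g h => hi g ((hg g).1 h), hR'⟩, hg⟩
    obtain ⟨g, h4, h5⟩ := h2 x y
    exact ⟨g, (hg g).2 h4, h5⟩
  | urysohn S d hU =>
    have h0 : ∀ x y, 0 ≤ d x y := by
      intro x y
      have h1 := hU.triangle x y x
      rw [(hU.eq x x).2 rfl, hU.symm y x] at h1
      linarith
    have hU' : Pool.Agent.H57.CM.UryR (S.filter fun s => 0 ≤ s) d := by
      refine ⟨hU.nonempty, fun x y => Finset.mem_filter.2 ⟨hU.mem x y, h0 x y⟩, hU.eq, hU.symm,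
        hU.triangle, fun s hs => (Finset.mem_filter.1 hs).2, fun F f hf h1 => hU.ext F f ?_ h1⟩
      intro x hx
      obtain ⟨h2, h3⟩ := hf x hx
      exact ⟨(Finset.mem_filter.1 h2).1, lt_of_le_of_ne (Finset.mem_filter.1 h2).2 (Ne.symm h3)⟩
    obtain ⟨m, lv, hV⟩ := Pool.Agent.H57.CM.ex_real _ _ d hU'
    exact ⟨_, _, hV.ar, Pool.Agent.H57.CM.chain_of_hv hV, fun g =>
      Pool.Agent.H57.CM.rst_aut hU' g⟩
  | wreath h1 h2 ih1 ih2 =>
    obtain ⟨τ₁, 𝔹₁, ha1, hc1, hg1⟩ := ih1
    obtain ⟨τ₂, 𝔹₂, ha2, hc2, hg2⟩ := ih2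
    obtain ⟨m₁, lv₁, hv1⟩ := Pool.Agent.H57.CM.hv_of_chain ha1 hc1
    obtain ⟨m₂, lv₂, hv2⟩ := Pool.Agent.H57.CM.hv_of_chain ha2 hc2
    have hv := Pool.Agent.H57.CM.ex_lex _ _ _ _ _ _ _ _ _ _ hv1 hv2
    haveI := hv1.ne
    haveI := hv2.ne
    refine ⟨_, _, hv.ar, Pool.Agent.H57.CM.chain_of_hv hv, fun g =>
      (Pool.Agent.H57.CM.lex_aut 𝔹₁ 𝔹₂ g).trans ?_⟩
    simp only [hg1, hg2, Set.mem_setOf_eq]

theorem result :
    ∀ (B : Type) (G : Set (B ≃ B)), IsBase G →
      ∀ (σ : Sig) (𝔸 : Str σ B), (∀ g ∈ G, IsAut 𝔸 g) →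
      (∃ (τ : Sig) (𝔹 : Str τ B), Homogeneous 𝔹 ∧ FinitelyBounded 𝔹 ∧
        ∀ g : B ≃ B, IsAut 𝔹 g ↔ g ∈ G) ∧
      (PPConstructsK3 𝔸 ∨ ∃ (σ' : Sig) (Y : Type) (_ : Finite Y) (𝕋 : Str σ' Y),
        ¬ PPConstructsK3 𝕋 ∧ N793a5b8e.ManyOneReducible (CSP 𝔸) (CSP 𝕋)) := by
  intro B G hG σ 𝔸 hA
  obtain ⟨τ, 𝔹, har, hc, hg⟩ := key hG
  obtain ⟨m, lv, hV⟩ := Pool.Agent.H57.CM.hv_of_chain har hc
  exact ⟨⟨τ, 𝔹, hc.2.2.1, Pool.Agent.H36.CH.pf_FBD B τ 𝔹 m lv hV, hg⟩,
    Pool.Agent.H72.CH.chains hV (Pool.Agent.H72.CH.tyi_of_aut hc.2.2.1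
      fun g h => hA g ((hg g).1 h))⟩

end Pool.Agent.Results.MP_6ab439_lc.ChainCompletions
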