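import Pool.Agent.H53.GXR.All
import Pool.Agent.H57.LCI.Defs

/-!
# The Bodirsky–Pinsker conjecture for GMSNP

Let `σ`, `τ` be finite relational signatures (`τ` without symbols of arity `0`), let `Al l c`
say which colours `c` (symbols of `τ`) are allowed for the relation `l` of `σ`, and let `L` be a
finite list of finite `τ`-structures. The finite `σ`-structures `𝕏` for which there is a
`τ`-structure `M` on the set of elements of `𝕏`, such that each tuple in a relation of `𝕏` is in an
allowed relation of `M`, and no structure in `L` has a homomorphism to `M`, are the models of a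
sentence in the logic GMSNP (= MMSNP₂; monotone guarded monadic SNP), and each such sentence is a
finite union of such classes with connected structures in `L`. If the class is the constraint
satisfaction problem of a countable structure `𝔸` whose automorphism group has finitely many orbits
on `n`-tuples for each `n` (for connected structures in `L` there is such an `𝔸`, a reduct of a
finitely bounded homogeneous structure: Bodirsky, Knäuer, Starke), then `𝔸` pp-constructs `K₃`, or
there is a finite structure `𝕋` which does not pp-construct `K₃` such that the constraint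
satisfaction problem of `𝔸` is many-one reducible in polynomial time to the one of `𝕋`.

The definitions are in `Pool.Agent.H68.BG.Conj` (`Sig`, `Str`, `PPConstructsK3`, `CSP`), in
`Pool.Agent.H58.SF.Defs` (`Oligo`) and in `Pool.Agent.H57.LCI.Defs` (`Cols`, `Avoids`).
-/

set_option autoImplicit false

namespace Pool.Agent.Results.MP_6ab439_lc.GMSNP

open Pool.Agent.H68.BP Pool.Agent.H58.SF Pool.Agent.H57.LCI

theorem result :
    ∀ (τ σ : Sig) (Al : Fin σ.m → Fin τ.m → Prop) (L : List (Σ n : ℕ, Str τ (Fin n)))
      (A : Type) (𝔸 : Str σ A), Countable A → Nonempty A → Oligo 𝔸 → (∀ c, 1 ≤ τ.ar c) →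
      (∀ (n : ℕ) (𝕏 : Str σ (Fin n)), (∃ f, IsHom 𝕏 𝔸 f) ↔
        ∃ M : Str τ (Fin n), Avoids L M ∧ Cols Al M 𝕏) →
      PPConstructsK3 𝔸 ∨ ∃ (ρ : Sig) (T : Type) (_ : Finite T) (𝕋 : Str ρ T),
        ¬ PPConstructsK3 𝕋 ∧ N793a5b8e.ManyOneReducible (CSP 𝔸) (CSP 𝕋) :=
  fun τ σ Al L A 𝔸 h1 h2 h3 h4 h5 =>
    Pool.Agent.H53.GXR.All.final τ σ Al L A 𝔸 h1 h2 h3 h4 h5

end Pool.Agent.Results.MP_6ab439_lc.GMSNP
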