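import Pool.Agent.H58.HN.Def
import Pool.Agent.H58.HN.Fin

/-!
# The Bodirsky–Pinsker conjecture for graphs with the finite images of a finite graph

Let `(D; E)` be a countable undirected graph with finitely many orbits on `n`-tuples for all `n`
which has the same finite homomorphic images as some finite graph without loops (for example if its
chromatic number is finite and there is an age indivisible group of automorphisms with finitely
many orbits on `D`). If `(D; E)` is not `2`-colourable, then it pp-constructs `K₃`. If it is
`2`-colourable and in the scope of the conjecture, its constraint satisfaction problem is in P.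
The definitions are in `Pool.Agent.H68.BG.Conj`, `Pool.Agent.H58.SF.Defs` (`Oligo`),
`Pool.Agent.H58.SF.Asm` (`Colorable`) and `Pool.Agent.H58.HN.Def` (`FiniteImages`,
`RamseyOrbits`).
-/

namespace Pool.Agent.Results.MP_6ab439_lc.HellNesetril

open Pool.Agent.H68.BP Pool.Agent.H58.SF Pool.Agent.H58.HN

theorem result (D : Type) (E : D → D → Prop) (hD : Countable D) (hol : Oligo (graph E))
    (hs : ∀ x y, E x y → E y x) (hE : FiniteImages E ∨ RamseyOrbits E) :
    (¬ Colorable E 2 → PPConstructsK3 (graph E)) ∧
      (InScope (graph E) → Colorable E 2 → CSP (graph E) ∈ N68a2faeb.P) := by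
  constructor
  · intro h2
    exact hn_K3 hD hol hs (hE.elim id (finiteImages_of_ramseyOrbits hs)) h2
  · rintro hI ⟨c, hc⟩
    refine Pool.Agent.H1.SF.pf_P2 D E (fun x => decide (c x = 0)) hI.2.1 hs fun x y hxy h => ?_
    have h1 := hc x y hxy
    have key : ∀ u v : Fin 2, decide (u = 0) = decide (v = 0) → u = v := by decide
    exact h1 (key _ _ h)

end Pool.Agent.Results.MP_6ab439_lc.HellNesetril
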