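import Pool.Agent.H44.CM.DAm
import Pool.Agent.H44.CM.FBd
import Pool.Agent.H44.CM.Final
import Pool.Agent.H57.LH.All
import Pool.Agent.H57.LH.Met

/-!
# The Bodirsky–Pinsker conjecture for first-order reducts, with parameters, of homogeneous structures with local completions

Let `𝔹` be a countable homogeneous structure in any finite relational signature which has local
completions (`LocalCompletions`) or completions (`Completable`), let `C` be a finite set of
elements, and let `𝔸` be any structure on the same set, with finitely many relations, which is
preserved by the automorphisms of `𝔹` which fix the elements of `C`, that is, any first-order reduct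
with parameters; equalities of entries are allowed. Then `𝔸` pp-constructs `K₃`, or there is a finite
structure `𝕋` which does not pp-construct `K₃` such that the constraint satisfaction problem of `𝔸`
is many-one reducible in polynomial time to the one of `𝕋`.

The structure `𝔹` has local completions if for every `r` there is a number `M` such that for each
family of structures prescribed on tuples of length at most `r` of elements of a finite set: if for
each set `U` of at most `M` elements there is a map to `𝔹` which embeds the structures prescribed on
tuples in `U`, then there is a map which embeds all of them. Metric spaces with distances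
`1, …, n` have local completions.

The structure `𝔹` has completions if there is a number `M` such that for each finite structure `𝕏`
and each graph `G` on its set of elements: if all cliques of `G` with at most `M` elements embed into
`𝔹`, then there is a map from `𝕏` to `𝔹` which is an embedding on each clique of `G`. Completions
exist for finitely bounded structures with free amalgamation (for example the generic hypergraphs
without certain finite complete subhypergraphs) and for structures with disjoint amalgamation of all
orders (for example the generic hypertournaments); so these two families are contained in the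
theorem, and they are named in it. All these structures are finitely bounded.

The definitions are in `Pool.Agent.H68.BG.Conj` (`Sig`, `Str`, `Homogeneous`, `FinitelyBounded`,
`IsAut`, `PPConstructsK3`, `CSP`), in `Pool.Agent.H57.LCI.Defs` (`LocalCompletions`, `IsMet`), in
`Pool.Agent.H57.LH.Met` (`MetricSpaces`), in `Pool.Agent.H53.NR.Defs` (`FreeAmalgamation`), in
`Pool.Agent.H44.CM.Defs` (`Completable`) and in `Pool.Agent.H44.CM.DAm` (`DisjointAmalgamation`).
-/

set_option autoImplicit false

namespace Pool.Agent.Results.MP_6ab439_lc.LocalCompletion

open Pool.Agent.H68.BP Pool.Agent.H58.SF Pool.Agent.H53.GC Pool.Agent.H53.NR Pool.Agent.H44.CM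
open Pool.Agent.H57.LCI (LocalCompletions)
open Pool.Agent.H57.LH (MetricSpaces)

theorem result :
    ∀ (τ σ : Sig) (B : Type) [Countable B] [Nonempty B] (𝔹 : Str τ B) (𝔸 : Str σ B) (C : Set B),
      Homogeneous 𝔹 →
      (LocalCompletions 𝔹 ∨ MetricSpaces 𝔹 ∨ Completable 𝔹 ∨
        (FinitelyBounded 𝔹 ∧ FreeAmalgamation 𝔹) ∨ DisjointAmalgamation 𝔹) →
      C.Finite → (∀ g : B ≃ B, IsAut 𝔹 g → (∀ x ∈ C, g x = x) → IsAut 𝔸 g) →
      FinitelyBounded 𝔹 ∧
        (PPConstructsK3 𝔸 ∨ ∃ (σ' : Sig) (Y : Type) (_ : Finite Y) (𝕋 : Str σ' Y),
          ¬ PPConstructsK3 𝕋 ∧ N793a5b8e.ManyOneReducible (CSP 𝔸) (CSP 𝕋)) := by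
  intro τ σ B _ _ 𝔹 𝔸 C hH hC hf hS
  rcases hC with h | h | h | ⟨h1, h2⟩ | h
  · exact Pool.Agent.H57.LH.lh_final τ σ B 𝔹 𝔸 hH h C hf hS
  · exact Pool.Agent.H57.LH.lh_final τ σ B 𝔹 𝔸 hH (Pool.Agent.H57.LH.lc_met h) C hf hS
  · exact ⟨bounded_of_completable h, cm_par τ σ B 𝔹 𝔸 hH h C hf hS⟩
  · exact ⟨h1, cm_par τ σ B 𝔹 𝔸 hH (cm_free h1 h2) C hf hS⟩
  · exact ⟨bounded_of_completable (completable_of_disjoint h),
      cm_par τ σ B 𝔹 𝔸 hH (completable_of_disjoint h) C hf hS⟩

end Pool.Agent.Results.MP_6ab439_lc.LocalCompletion
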